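import Mathlib

namespace Pool.Agent.Results.MP_053b7f_lc.NoWinningStrategy

universe u

/-- One round at the current set `S`: a set `P`, which partitions `S` into `S ∩ P` and `S \ P`,
and the part that is chosen (`true` for `S ∩ P`, `false` for `S \ P`). -/
abbrev Round (E : Type u) := Set E × Bool

/-- The first `n` rounds of the play `m`, the latest one first. -/
def hist {E : Type u} (m : ℕ → Round E) : ℕ → List (Round E)
  | 0 => []
  | n + 1 => m n :: hist m n

/-- The sets `S_n` of the play `m`, with `S_0 = E`. -/
def S {E : Type u} (m : ℕ → Round E) : ℕ → Set E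
  | 0 => Set.univ
  | n + 1 => if (m n).2 = true then S m n ∩ (m n).1 else S m n \ (m n).1

/-- A strategy for player A: `split` says how A splits the current set, given the history;
`choose` says which part A picks, given the history and the way B has just split. -/
structure Strategy (E : Type u) where
  split : List (Round E) → Set E
  choose : List (Round E) → Set E → Bool

/-- Player A follows `σ` in the play `m`. For even `n`, A splits `S_n` and B picks `S_{n+1}`;
for odd `n`, B splits `S_n` and A picks `S_{n+1}`. -/
def Follows {E : Type u} (σ : Strategy E) (m : ℕ → Round E) : Prop :=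
  (∀ n, Even n → (m n).1 = σ.split (hist m n)) ∧
  (∀ n, Odd n → (m n).2 = σ.choose (hist m n) (m n).1)

/-- `σ` is a winning strategy for A: every play in which A follows `σ` has empty
intersection. -/
def Winning {E : Type u} (σ : Strategy E) : Prop :=
  ∀ m : ℕ → Round E, Follows σ m → ⋂ n, S m (n + 1) = ∅

section proof

variable {E : Type u} (σ : Strategy E) (D : ℕ → Set E)

/-- next round when B decides `k` -/
def mv (h : List (Round E)) (k : ℕ) : Round E :=
  if Even h.length then (σ.split h, decide (k = 0)) else (D k, σ.choose h (D k))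

/-- history from B's decisions -/
def f : List ℕ → List (Round E)
  | [] => []
  | k :: l => mv σ D (f l) k :: f l

lemma f_length (l : List ℕ) : (f σ D l).length = l.length := by
  induction l with
  | nil => rfl
  | cons k l ih => simp [f, ih]

end proof

theorem result (E : Type u) (hE : Uncountable E) : ¬ ∃ σ : Strategy E, Winning σ := by
  classical
  rintro ⟨σ, hσ⟩
  obtain ⟨T, hTc, φ, hφ⟩ : ∃ T : Set E, ¬ T.Countable ∧ ∃ φ : T → (ℕ → Bool),
      Function.Injective φ := by
    have h1 : Cardinal.aleph 1 ≤ Cardinal.mk E := by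
      rw [← Cardinal.succ_aleph0]
      exact Order.succ_le_of_lt (by
        rw [← not_le, Cardinal.mk_le_aleph0_iff]
        exact not_countable_iff.mpr hE)
    obtain ⟨T, hT⟩ := Cardinal.le_mk_iff_exists_set.mp h1
    refine ⟨T, ?_, ?_⟩
    · rw [← Cardinal.le_aleph0_iff_set_countable, hT, not_le]
      exact Cardinal.aleph0_lt_aleph_one
    · have : Cardinal.lift.{0} (Cardinal.mk T) ≤ Cardinal.lift.{u} (Cardinal.mk (ℕ → Bool)) := by
        rw [hT]
        simpa using Cardinal.aleph_one_le_continuum
      obtain ⟨e⟩ := Cardinal.lift_mk_le'.mp this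
      exact ⟨e, e.injective⟩
  let D : ℕ → Set E := fun k => {x | ∃ h : x ∈ T, φ ⟨x, h⟩ k = true}
  let bad : List ℕ → Set E := fun l =>
    {x | x ∈ T ∧ ∀ k, σ.choose (f σ D l) (D k) ≠ decide (x ∈ D k)}
  have hbad : ∀ l, (bad l).Countable := by
    intro l
    apply Set.Subsingleton.countable
    rintro x ⟨hx, hxk⟩ y ⟨hy, hyk⟩
    have : (⟨x, hx⟩ : T) = ⟨y, hy⟩ := by
      apply hφ
      funext k
      have h1 := hxk k
      have h2 := hyk k
      have h3 : decide (x ∈ D k) = φ ⟨x, hx⟩ k := by
        have : x ∈ D k ↔ φ ⟨x, hx⟩ k = true := ⟨fun ⟨_, h⟩ => h, fun h => ⟨hx, h⟩⟩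
        simp [this]
      have h4 : decide (y ∈ D k) = φ ⟨y, hy⟩ k := by
        have : y ∈ D k ↔ φ ⟨y, hy⟩ k = true := ⟨fun ⟨_, h⟩ => h, fun h => ⟨hy, h⟩⟩
        simp [this]
      rw [h3] at h1
      rw [h4] at h2
      revert h1 h2
      cases σ.choose (f σ D l) (D k) <;> cases φ ⟨x, hx⟩ k <;> cases φ ⟨y, hy⟩ k <;> simp
    exact congrArg Subtype.val this
  have hU : (⋃ l, bad l).Countable := Set.countable_iUnion hbad
  obtain ⟨x, hxT, hx⟩ : ∃ x ∈ T, x ∉ ⋃ l, bad l := by
    by_contra hcon
    push Not at hcon
    exact hTc (hU.mono hcon)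
  have hx' : ∀ l, ∃ k, σ.choose (f σ D l) (D k) = decide (x ∈ D k) := by
    intro l
    by_contra hcon
    push Not at hcon
    exact hx (Set.mem_iUnion.mpr ⟨l, hxT, hcon⟩)
  choose g hg using hx'
  let dec : List ℕ → ℕ := fun l =>
    if Even l.length then (if x ∈ σ.split (f σ D l) then 0 else 1) else g l
  let L : ℕ → List ℕ := fun n => Nat.rec [] (fun _ l => dec l :: l) n
  have hL0 : L 0 = [] := rfl
  have hLs : ∀ n, L (n + 1) = dec (L n) :: L n := fun n => rfl
  have hLlen : ∀ n, (L n).length = n := by
    intro n
    induction n with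
    | zero => rfl
    | succ n ih => rw [hLs]; simp [ih]
  let m : ℕ → Round E := fun n => mv σ D (f σ D (L n)) (dec (L n))
  have hh : ∀ n, hist m n = f σ D (L n) := by
    intro n
    induction n with
    | zero => rfl
    | succ n ih =>
      rw [hLs]
      simp only [hist, f, ih]
      rfl
  have hmem : ∀ n, (m n).2 = decide (x ∈ (m n).1) := by
    intro n
    by_cases he : Even n
    · simp only [m, mv, f_length, hLlen, he, if_true, dec]
      by_cases hx2 : x ∈ σ.split (f σ D (L n)) <;> simp [hx2]
    · simp only [m, mv, f_length, hLlen, he, if_false, dec]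
      exact hg _
  have hfol : Follows σ m := by
    constructor
    · intro n hn
      rw [hh]
      simp only [m, mv, f_length, hLlen, hn, if_true]
    · intro n hn
      rw [hh]
      have hn' : ¬ Even n := Nat.not_even_iff_odd.mpr hn
      simp only [m, mv, f_length, hLlen, hn', if_false]
  have hS : ∀ n, x ∈ S m n := by
    intro n
    induction n with
    | zero => exact Set.mem_univ x
    | succ n ih =>
      simp only [S]
      have := hmem n
      by_cases hx3 : x ∈ (m n).1
      · simp only [hx3, decide_true] at this
        rw [if_pos this]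
        exact ⟨ih, hx3⟩
      · simp only [hx3, decide_false] at this
        rw [if_neg (by simp [this])]
        exact ⟨ih, hx3⟩
  have hfin := hσ m hfol
  have : x ∈ ⋂ n, S m (n + 1) := Set.mem_iInter.mpr fun n => hS (n + 1)
  rw [hfin] at this
  exact this

end Pool.Agent.Results.MP_053b7f_lc.NoWinningStrategy
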